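import Mathlib
import Pool.Agent.H485R3.Hodge.KunnethGalois

/-!
# The Kuenneth formula for Hodge classes of CM Hodge structures

The definitions `conjEmb`, `hodgeDiff`, `fieldOf`, `hullOf`, `IsHodgeForm`,
`IsExternalProductOfHodge` are those of `Pool/Agent/H485R3/Hodge/Defs.lean` and `Ext.lean`.
-/

set_option autoImplicit false

namespace Pool.Agent.Results.MP_e2e4f5_ag.KunnethForHodgeClasses

open NumberField Pool.Agent.H485R3.Hodge

/-- Every Hodge class in variables of the pieces `E j` is a combination of external products over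
`i ∈ I` of Hodge classes in the variables of the pieces with `γ j = i`. -/
def Kunneth {I J : Type*} [Fintype I] [DecidableEq I] {E : J → Type*}
    [∀ j, Field (E j)] [∀ j, NumberField (E j)] (u : ∀ j, (E j →ₐ[ℚ] ℂ) → ℤ) (γ : J → I) : Prop :=
  ∀ (n : ℕ) (t : Fin n → J) (φ : MultilinearMap ℚ (fun k => E (t k)) ℚ),
    IsHodgeForm u t φ → φ ∈ Submodule.span ℚ {ψ | IsExternalProductOfHodge u γ t ψ}

/-- For every `i` the elements of `K i = fieldOf u γ i` in the compositum of the fields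
`hullOf E γ i ⊓ K l`, `l ≠ i`, are real. -/
def MeetReal {I J : Type*} {E : J → Type*} [∀ j, Field (E j)] [∀ j, NumberField (E j)]
    (u : ∀ j, (E j →ₐ[ℚ] ℂ) → ℤ) (γ : J → I) : Prop :=
  ∀ i, ∀ z ∈ fieldOf u γ i ⊓ ⨆ l ∈ {l | l ≠ i}, hullOf E γ i ⊓ fieldOf u γ l, z.im = 0

theorem result {I : Type*} [Fintype I] [DecidableEq I] :
    (∀ {J : Type} [Finite J] {E : J → Type} [∀ j, Field (E j)] [∀ j, NumberField (E j)]
      (u : ∀ j, (E j →ₐ[ℚ] ℂ) → ℤ) (_ : ∀ j σ, u j (conjEmb σ) = - u j σ) (γ : J → I),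
      MeetReal u γ → Kunneth u γ) ∧
    (∀ {E : I → Type} [∀ i, Field (E i)] [∀ i, NumberField (E i)] [∀ i, IsCMField (E i)]
      (σ₀ : ∀ i, E i →ₐ[ℚ] ℂ) (w : I → ℕ) (_ : ∀ i, 0 < w i),
      (Kunneth (fun i => hodgeDiff (σ₀ i) (w i)) id →
        ∀ i j, i ≠ j → ∀ z ∈ (σ₀ i).fieldRange ⊓ (σ₀ j).fieldRange, z.im = 0) ∧
      ((∀ i, IsGalois ℚ (E i)) ∨ Fintype.card I = 2 →
        (∀ i j, i ≠ j → ∀ z ∈ (σ₀ i).fieldRange ⊓ (σ₀ j).fieldRange, z.im = 0) →
        Kunneth (fun i => hodgeDiff (σ₀ i) (w i)) id)) := by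
  refine ⟨fun u hu γ h _ t φ hφ => kunneth_hodge u hu γ h t φ hφ, ?_⟩
  intro E _ _ _ σ₀ w hw
  constructor
  · intro hK i j hij z hz
    by_contra hz0
    rw [IntermediateField.mem_inf] at hz
    obtain ⟨n, t, φ, h1, h2⟩ := exists_exotic σ₀ w hw i j hij z hz.1 hz.2 hz0
    exact h2 (hK n t φ h1)
  · rintro (hG | hc) h
    · exact (galois_kunneth σ₀ w hw).1 h
    · obtain ⟨i₁, i₂, hne, hI⟩ := Finset.card_eq_two.1 (Finset.card_univ.trans hc)
      refine (k3_kunneth σ₀ w hw i₁ i₂ hne ?_).1 (h i₁ i₂ hne)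
      intro i
      have h1 := Finset.mem_univ i
      rw [hI] at h1
      simpa using h1

end Pool.Agent.Results.MP_e2e4f5_ag.KunnethForHodgeClasses
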